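import Mathlib

set_option autoImplicit false

/-!
# Covers of the triangular grid `T_d(n)`

The points of `T_d(n)` are the `x : Fin d → ℕ` with `∑ i, x i + 1 ≤ n`.
-/

namespace Pool.Agent.N516.TG

open Finset

/-- The pair `h = (c, b)` (with `c ≠ 0`) is the hyperplane `∑ i, c i * x i = b` of `ℝ^d`;
`OnHyp h x` says that it contains the lattice point `x`. -/
def OnHyp {d : ℕ} (h : (Fin d → ℝ) × ℝ) (x : Fin d → ℕ) : Prop :=
  ∑ i, h.1 i * (x i : ℝ) = h.2

/-- `(some i, b)` is the hyperplane `x_i = b`, and `(none, b)` is the hyperplane `x_1 + ... + x_d = b`;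
these are the hyperplanes parallel to a facet of the simplex `x_i ≥ 0`, `x_1 + ... + x_d ≤ n - 1`. -/
abbrev Facet (d : ℕ) := Option (Fin d) × ℝ

/-- the hyperplane parallel to a facet contains the point `x` -/
def OnFacet {d : ℕ} (f : Facet d) (x : Fin d → ℕ) : Prop :=
  match f.1 with
  | some i => (x i : ℝ) = f.2
  | none => ∑ i, (x i : ℝ) = f.2

open Classical in
/-- The number of members of the list `F` of hyperplanes parallel to facets which contain `x`,
counted with multiplicity. -/
noncomputable def cntF {d : ℕ} (F : List (Facet d)) (x : Fin d → ℕ) : ℕ :=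
  F.countP (fun f => decide (OnFacet f x))

open Classical in
/-- The number of members of the list `R` of hyperplanes which contain `x`, counted with
multiplicity. -/
noncomputable def cntR {d : ℕ} (R : List ((Fin d → ℝ) × ℝ)) (x : Fin d → ℕ) : ℕ :=
  R.countP (fun h => decide (OnHyp h x))

open Classical in
/-- The fractional covering number of `T_d(m)`: the infimum of the total weights of the fractional
covers, i.e. of finite families of hyperplanes `h j` with weights `w j ≥ 0` such that the hyperplanes
through each point of `T_d(m)` have total weight at least one. -/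
noncomputable def fstar (m d : ℕ) : ℝ :=
  sInf {s : ℝ | ∃ (N : ℕ) (h : Fin N → (Fin d → ℝ) × ℝ) (w : Fin N → ℝ),
    (∀ j, (h j).1 ≠ 0) ∧ (∀ j, 0 ≤ w j) ∧
    (∀ x : Fin d → ℕ, ∑ i, x i + 1 ≤ m → 1 ≤ ∑ j, if OnHyp (h j) x then w j else 0) ∧
    s = ∑ j, w j}

end Pool.Agent.N516.TG
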