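import Pool.Agent.N516.TG.Main

set_option autoImplicit false

namespace Pool.Agent.N516.TG

open Finset Classical

variable {d : ℕ}

/-- a hyperplane parallel to a facet as a general hyperplane -/
noncomputable def hyp (f : Facet d) : (Fin d → ℝ) × ℝ :=
  match f.1 with
  | some i => (Pi.single i 1, f.2)
  | none => (fun _ => 1, f.2)

theorem onHyp_hyp (f : Facet d) (x : Fin d → ℕ) : OnHyp (hyp f) x ↔ OnFacet f x := by
  obtain ⟨t, b⟩ := f
  cases t with
  | some i =>
    simp only [OnHyp, hyp, OnFacet]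
    rw [Finset.sum_eq_single i]
    · simp
    · intro j _ hj; simp [hj]
    · intro h; exact absurd (mem_univ _) h
  | none => simp [OnHyp, hyp, OnFacet]

theorem hyp_ne (hd : 1 ≤ d) (f : Facet d) : (hyp f).1 ≠ 0 := by
  obtain ⟨t, b⟩ := f
  cases t with
  | some i => intro h; have := congrFun h i; simp [hyp] at this
  | none => intro h; have := congrFun h ⟨0, hd⟩; simp [hyp] at this

theorem fstar_set_nonneg (m d : ℕ) : ∀ s ∈ {s : ℝ | ∃ (N : ℕ) (h : Fin N → (Fin d → ℝ) × ℝ)
    (w : Fin N → ℝ), (∀ j, (h j).1 ≠ 0) ∧ (∀ j, 0 ≤ w j) ∧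
    (∀ x : Fin d → ℕ, ∑ i, x i + 1 ≤ m → 1 ≤ ∑ j, if OnHyp (h j) x then w j else 0) ∧
    s = ∑ j, w j}, 0 ≤ s := by
  rintro s ⟨N, h, w, _, hw, _, rfl⟩
  exact Finset.sum_nonneg (fun j _ => hw j)

theorem fstar_nonneg (m d : ℕ) : 0 ≤ fstar m d := by
  unfold fstar
  exact Real.sInf_nonneg (fun s hs => by
    apply fstar_set_nonneg m d s
    convert hs)

theorem countP_sum (G : List (Facet d)) (y : Fin d → ℕ) (w : ℝ) :
    ∑ j : Fin G.length, (if OnHyp (hyp (G.get j)) y then w else 0) = (cntF G y : ℝ) * w := by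
  induction G with
  | nil => simp [cntF]
  | cons f G ih =>
    have h1 : cntF (f :: G) y = cntF G y + if OnFacet f y then 1 else 0 := by
      unfold cntF; rw [List.countP_cons]; simp
    rw [h1]
    have h2 : ∑ j : Fin (f :: G).length, (if OnHyp (hyp ((f :: G).get j)) y then w else 0) =
        (if OnHyp (hyp f) y then w else 0) +
          ∑ j : Fin G.length, (if OnHyp (hyp (G.get j)) y then w else 0) := by
      rw [show (∑ j : Fin (f :: G).length, (if OnHyp (hyp ((f :: G).get j)) y then w else 0)) =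
        ∑ j : Fin (G.length + 1), (if OnHyp (hyp ((f :: G).get j)) y then w else 0) from rfl,
        Fin.sum_univ_succ]
      rfl
    rw [h2, ih, onHyp_hyp]
    by_cases h : OnFacet f y
    · simp only [h, if_true]; push_cast; ring
    · simp only [h, if_false]; push_cast; ring

theorem fstar_le (hd : 1 ≤ d) (m q : ℕ) (G : List (Facet d))
    (hG : ∀ y : Fin d → ℕ, ∑ i, y i + 1 ≤ m → q ≤ cntF G y) :
    fstar m d * q ≤ G.length := by
  rcases Nat.eq_zero_or_pos q with rfl | hq
  · simp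
  have hq' : (0 : ℝ) < q := by exact_mod_cast hq
  rw [← le_div_iff₀ hq']
  unfold fstar
  apply csInf_le
  · exact ⟨0, fun s hs => by
      apply fstar_set_nonneg m d s
      convert hs⟩
  · refine ⟨G.length, fun j => hyp (G.get j), fun _ => 1 / (q : ℝ), fun j => hyp_ne hd _,
      fun j => by positivity, fun y hy => ?_, ?_⟩
    · have h1 : ∑ j : Fin G.length, (if OnHyp (hyp (G.get j)) y then (1 / (q : ℝ)) else 0) =
          (cntF G y : ℝ) * (1 / q) := countP_sum G y _
      have h2 : (1 : ℝ) ≤ (cntF G y : ℝ) * (1 / q) := by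
        rw [mul_one_div, le_div_iff₀ hq', one_mul]
        exact_mod_cast hG y hy
      calc (1 : ℝ) ≤ (cntF G y : ℝ) * (1 / q) := h2
        _ = ∑ j : Fin G.length, (if OnHyp (hyp (G.get j)) y then (1 / (q : ℝ)) else 0) := h1.symm
        _ = _ := by
          refine Finset.sum_congr rfl (fun j _ => ?_)
          congr
    · simp [div_eq_mul_inv]

theorem all (d n k : ℕ) (hd : 1 ≤ d) (F : List (Facet d)) (R : List ((Fin d → ℝ) × ℝ))
    (hR : ∀ h ∈ R, h.1 ≠ 0)
    (hc : ∀ x : Fin d → ℕ, ∑ i, x i + 1 ≤ n → k ≤ cntF F x + cntR R x) :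
    (∃ G : List (Facet d), G.length ≤ F.length ∧
      ∀ y : Fin d → ℕ, ∑ i, y i + 1 ≤ k → n ≤ cntF G y + R.length) ∧
    fstar k d * n ≤ F.length + fstar k d * R.length := by
  obtain ⟨d, rfl⟩ : ∃ e, d = e + 1 := ⟨d - 1, by omega⟩
  obtain ⟨G, hG1, hG2⟩ := exists_G n k F
  have hG3 : ∀ y : Fin (d + 1) → ℕ, ∑ i, y i + 1 ≤ k → n ≤ cntF G y + R.length := by
    intro y hy
    rw [hG2 y hy]
    exact transfer n k F R hR hc y hy
  refine ⟨⟨G, hG1, hG3⟩, ?_⟩
  have h0 := fstar_nonneg k (d + 1)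
  rcases Nat.lt_or_ge R.length n with hlt | hge
  · have h1 := fstar_le hd k (n - R.length) G (fun y hy => by have := hG3 y hy; omega)
    rw [Nat.cast_sub hlt.le] at h1
    have h2 : (G.length : ℝ) ≤ F.length := by exact_mod_cast hG1
    nlinarith
  · have h1 : (n : ℝ) ≤ R.length := by exact_mod_cast hge
    have h2 : (0 : ℝ) ≤ F.length := by positivity
    have := mul_le_mul_of_nonneg_left h1 h0
    linarith

end Pool.Agent.N516.TG
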