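import Pool.Agent.N516.TG.Defs

set_option autoImplicit false

namespace Pool.Agent.N516.TG

open Finset

/-- the points of the triangular grid `T_d(n)` with prescribed coordinates -/
def InS {d : ℕ} (n : ℕ) (I : Fin d → Finset ℕ) (J : Finset ℕ) (x : Fin d → ℕ) : Prop :=
  ∑ i, x i + 1 ≤ n ∧ (∀ i, x i ∈ I i) ∧ n - 1 - ∑ i, x i ∈ J

theorem base (n : ℕ) (I : Fin 1 → Finset ℕ) (J : Finset ℕ) (L : List ((Fin 1 → ℝ) × ℝ))
    (hI : ∀ i, I i ⊆ range n) (hJ : J ⊆ range n) (hL : ∀ h ∈ L, h.1 ≠ 0)
    (hc : ∀ x, InS n I J x → ∃ h ∈ L, OnHyp h x) :
    ∑ i, (I i).card + J.card ≤ 1 * n + L.length := by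
  classical
  -- the set of the points
  set S : Finset ℕ := (I 0).filter (fun i => n - 1 - i ∈ J) with hS
  have h1 : (I 0).card + J.card ≤ n + S.card := by
    have e1 : ((range n).filter (fun i => n - 1 - i ∈ J)).card = J.card := by
      apply Finset.card_bij (fun i _ => n - 1 - i)
      · intro a ha; exact (mem_filter.1 ha).2
      · intro a ha b hb hab
        have h1 := mem_range.1 (mem_filter.1 ha).1
        have h2 := mem_range.1 (mem_filter.1 hb).1
        omega
      · intro b hb
        have h1 := mem_range.1 (hJ hb)
        have h2 : n - 1 - (n - 1 - b) = b := by omega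
        exact ⟨n - 1 - b, mem_filter.2 ⟨mem_range.2 (by omega), by rw [h2]; exact hb⟩, h2⟩
    have e2 : S = I 0 ∩ (range n).filter (fun i => n - 1 - i ∈ J) := by
      ext i
      simp only [hS, mem_filter, mem_inter]
      constructor
      · rintro ⟨h1, h2⟩; exact ⟨h1, hI 0 h1, h2⟩
      · rintro ⟨h1, _, h2⟩; exact ⟨h1, h2⟩
    have e3 := Finset.card_union_add_card_inter (I 0) ((range n).filter (fun i => n - 1 - i ∈ J))
    have e4 : (I 0 ∪ (range n).filter (fun i => n - 1 - i ∈ J)).card ≤ n := by
      refine (Finset.card_le_card (Finset.union_subset (hI 0) (filter_subset _ _))).trans ?_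
      simp
    rw [e1, ← e2] at e3
    omega
  have h2 : S.card ≤ L.length := by
    -- each point of `S` is on a hyperplane, which contains only one point
    have hx : ∀ i ∈ S, ∃ h ∈ L, OnHyp h (fun _ : Fin 1 => i) := by
      intro i hi
      obtain ⟨h1, h2⟩ := mem_filter.1 hi
      have h3 := mem_range.1 (hI 0 h1)
      apply hc
      refine ⟨by simp; omega, fun j => ?_, by simpa using h2⟩
      have : j = 0 := Subsingleton.elim _ _
      rw [this]; exact h1
    choose! g hg1 hg2 using hx
    have h3 : S.card ≤ L.toFinset.card := by
      apply Finset.card_le_card_of_injOn g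
      · intro i hi; exact List.mem_toFinset.2 (hg1 i hi)
      · intro a ha b hb hab
        have h1 := hg2 a ha
        have h2 := hg2 b hb
        rw [← hab] at h2
        have hne := hL _ (hg1 a ha)
        unfold OnHyp at h1 h2
        simp only [Fin.sum_univ_one] at h1 h2
        have h0 : (g a).1 0 ≠ 0 := by
          intro h0
          apply hne
          funext j
          have : j = 0 := Subsingleton.elim _ _
          rw [this, h0]; rfl
        have : (a : ℝ) = b := mul_left_cancel₀ h0 (h1.trans h2.symm)
        exact_mod_cast this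
    exact h3.trans (List.toFinset_card_le L)
  simp only [Fin.sum_univ_one]
  omega

/-- the trace of a hyperplane on the slice `x_0 = i` -/
def slice {d : ℕ} (i : ℕ) (h : (Fin (d + 1) → ℝ) × ℝ) : (Fin d → ℝ) × ℝ :=
  (fun j => h.1 j.succ, h.2 - h.1 0 * i)

theorem onHyp_cons {d : ℕ} (h : (Fin (d + 1) → ℝ) × ℝ) (i : ℕ) (y : Fin d → ℕ) :
    OnHyp h (Fin.cons i y : Fin (d + 1) → ℕ) ↔ OnHyp (slice i h) y := by
  unfold OnHyp slice
  rw [Fin.sum_univ_succ]
  simp only [Fin.cons_zero, Fin.cons_succ]
  constructor
  · intro h; linarith
  · intro h; linarith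

theorem card_cut (J : Finset ℕ) (n i : ℕ) (hJ : J ⊆ range n) (hi : i ≤ n) :
    J.card ≤ (J ∩ range (n - i)).card + i := by
  have h1 : J ⊆ (J ∩ range (n - i)) ∪ Finset.Ico (n - i) n := by
    intro a ha
    have h2 := mem_range.1 (hJ ha)
    simp only [mem_union, mem_inter, mem_range, Finset.mem_Ico]
    by_cases h : a < n - i
    · left; exact ⟨ha, h⟩
    · right; omega
  refine (Finset.card_le_card h1).trans ((Finset.card_union_le _ _).trans ?_)
  rw [Nat.card_Ico]
  omega

theorem main (d : ℕ) : ∀ (n : ℕ) (I : Fin (d + 1) → Finset ℕ) (J : Finset ℕ)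
    (L : List ((Fin (d + 1) → ℝ) × ℝ)),
    (∀ i, I i ⊆ range n) → J ⊆ range n → (∀ h ∈ L, h.1 ≠ 0) →
    (∀ x, InS n I J x → ∃ h ∈ L, OnHyp h x) →
    ∑ i, (I i).card + J.card ≤ (d + 1) * n + L.length := by
  classical
  induction d with
  | zero =>
    intro n I J L hI hJ hL hc
    have := base n I J L hI hJ hL hc
    simpa using this
  | succ d ih =>
    intro n I J L
    induction hm : L.length using Nat.strong_induction_on generalizing I L with
    | _ m ihm =>
    intro hI hJ hL hc
    have hsum : ∀ I' : Fin (d + 2) → Finset ℕ, ∑ i, (I' i).card =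
        (I' 0).card + ∑ i : Fin (d + 1), (I' i.succ).card := fun I' => Fin.sum_univ_succ _
    have hJn : J.card ≤ n := by
      have := Finset.card_le_card hJ
      simpa using this
    by_cases hempty : I 0 = ∅
    · rw [hsum, hempty, Finset.card_empty]
      have h1 : ∑ i : Fin (d + 1), (I i.succ).card ≤ (d + 1) * n := by
        refine (Finset.sum_le_card_nsmul univ _ n (fun i _ => ?_)).trans (by simp)
        have := Finset.card_le_card (hI i.succ)
        simpa using this
      have h2 : (d + 1 + 1) * n = (d + 1) * n + n := by ring
      omega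
    · have hne : (I 0).Nonempty := Finset.nonempty_iff_ne_empty.2 hempty
      obtain ⟨i0, hi0, hmin⟩ : ∃ i0 ∈ I 0, ∀ j ∈ I 0, i0 ≤ j :=
        ⟨(I 0).min' hne, Finset.min'_mem _ _, fun j hj => Finset.min'_le _ _ hj⟩
      have hi0n : i0 < n := mem_range.1 (hI 0 hi0)
      by_cases hex : ∃ h ∈ L, (slice i0 h).1 = 0 ∧ (slice i0 h).2 = 0
      · obtain ⟨h, hh, hz1, hz2⟩ := hex
        -- remove the hyperplane and the slice
        have hlen : (L.erase h).length + 1 = L.length := by
          have := List.length_erase_add_one hh
          exact this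
        have h0 : h.1 0 ≠ 0 := by
          intro h0
          apply hL h hh
          funext j
          refine Fin.cases h0 (fun j => ?_) j
          exact congrFun hz1 j
        have key := ihm (L.erase h).length (by omega) (Function.update I 0 ((I 0).erase i0))
          (L.erase h) rfl ?_ hJ (fun g hg => hL g (List.mem_of_mem_erase hg)) ?_
        · rw [hsum] at key ⊢
          simp only [Function.update_self] at key
          have h3 : ∑ i : Fin (d + 1), (Function.update I 0 ((I 0).erase i0) i.succ).card
              = ∑ i : Fin (d + 1), (I i.succ).card := by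
            refine Finset.sum_congr rfl (fun i _ => ?_)
            rw [Function.update_of_ne (Fin.succ_ne_zero i)]
          rw [h3, Finset.card_erase_of_mem hi0] at key
          have h4 : 1 ≤ (I 0).card := Finset.card_pos.2 hne
          omega
        · intro i
          refine Fin.cases ?_ (fun j => ?_) i
          · rw [Function.update_self]
            exact (Finset.erase_subset _ _).trans (hI 0)
          · rw [Function.update_of_ne (Fin.succ_ne_zero j)]
            exact hI _
        · rintro x ⟨hx1, hx2, hx3⟩
          have hx0 : x 0 ∈ (I 0).erase i0 := by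
            have := hx2 0
            rwa [Function.update_self] at this
          obtain ⟨g, hg, hgx⟩ := hc x ⟨hx1, fun i => by
            refine Fin.cases ?_ (fun j => ?_) i
            · exact Finset.mem_of_mem_erase hx0
            · have := hx2 j.succ
              rwa [Function.update_of_ne (Fin.succ_ne_zero j)] at this, hx3⟩
          refine ⟨g, ?_, hgx⟩
          by_cases hgh : g = h
          · exfalso
            subst hgh
            unfold OnHyp at hgx
            rw [Fin.sum_univ_succ] at hgx
            have h5 : ∑ i : Fin (d + 1), g.1 i.succ * (x i.succ : ℝ) = 0 :=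
              Finset.sum_eq_zero (fun i _ => by
                have : g.1 i.succ = 0 := congrFun hz1 i
                rw [this, zero_mul])
            have h6 : g.2 - g.1 0 * (i0 : ℝ) = 0 := hz2
            rw [h5, add_zero] at hgx
            have h7 : g.1 0 * (x 0 : ℝ) = g.1 0 * (i0 : ℝ) := by linarith
            have h8 : (x 0 : ℝ) = i0 := mul_left_cancel₀ h0 h7
            exact (Finset.ne_of_mem_erase hx0) (by exact_mod_cast h8)
          · exact (List.mem_erase_of_ne hgh).2 hg
      · push Not at hex
        have key := ih (n - i0) (fun i => I i.succ ∩ range (n - i0)) (J ∩ range (n - i0))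
          ((L.map (slice i0)).filter (fun h => decide (h.1 ≠ 0))) (fun i => inter_subset_right)
          inter_subset_right ?_ ?_
        · rw [hsum]
          have h1 : (I 0).card ≤ n - i0 := by
            have h2 : I 0 ⊆ Finset.Ico i0 n := fun j hj =>
              Finset.mem_Ico.2 ⟨hmin j hj, mem_range.1 (hI 0 hj)⟩
            have := Finset.card_le_card h2
            rwa [Nat.card_Ico] at this
          have h3 : ((L.map (slice i0)).filter (fun h => decide (h.1 ≠ 0))).length ≤ L.length := by
            refine (List.length_filter_le _ _).trans ?_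
            rw [List.length_map]
          have h4 : ∑ i : Fin (d + 1), (I i.succ).card ≤
              ∑ i : Fin (d + 1), (I i.succ ∩ range (n - i0)).card + (d + 1) * i0 := by
            have : ∑ i : Fin (d + 1), (I i.succ).card ≤
                ∑ i : Fin (d + 1), ((I i.succ ∩ range (n - i0)).card + i0) :=
              Finset.sum_le_sum (fun i _ => card_cut _ n i0 (hI _) hi0n.le)
            rw [Finset.sum_add_distrib] at this
            simpa using this
          have h5 := card_cut J n i0 hJ hi0n.le
          have h6 : (d + 1) * (n - i0) + (d + 1) * i0 = (d + 1) * n := by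
            rw [← Nat.mul_add, Nat.sub_add_cancel hi0n.le]
          have h7 : (d + 1 + 1) * n = (d + 1) * n + n := by ring
          omega
        · intro h hh
          have := (List.mem_filter.1 hh).2
          simpa using this
        · rintro y ⟨hy1, hy2, hy3⟩
          have hsy : ∑ i, (Fin.cons i0 y : Fin (d + 2) → ℕ) i = i0 + ∑ i, y i := by
            rw [Fin.sum_univ_succ]; simp
          obtain ⟨h, hh, hhx⟩ := hc (Fin.cons i0 y) ⟨by rw [hsy]; omega, fun i => by
            refine Fin.cases ?_ (fun j => ?_) i
            · simpa using hi0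
            · simpa using (mem_inter.1 (hy2 j)).1, by
            rw [hsy]
            have : n - 1 - (i0 + ∑ i, y i) = n - i0 - 1 - ∑ i, y i := by omega
            rw [this]
            exact (mem_inter.1 hy3).1⟩
          rw [onHyp_cons] at hhx
          refine ⟨slice i0 h, List.mem_filter.2 ⟨List.mem_map.2 ⟨h, hh, rfl⟩, ?_⟩, hhx⟩
          simp only [ne_eq, decide_not, Bool.not_eq_eq_eq_not, Bool.not_true,
            decide_eq_false_iff_not]
          intro hz
          apply hex h hh hz
          unfold OnHyp at hhx
          rw [hz] at hhx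
          simpa using hhx.symm

end Pool.Agent.N516.TG
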