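import Pool.Agent.N516.TG.Lem

set_option autoImplicit false

namespace Pool.Agent.N516.TG

open Finset Classical

variable {d : ℕ}

/-- the value of the constant of the facet-parallel hyperplane number `i` in `T_d(n)` -/
noncomputable def val (n : ℕ) (t : Option (Fin d)) (i : ℕ) : ℝ :=
  match t with
  | some _ => (i : ℝ)
  | none => (n : ℝ) - 1 - i

theorem val_inj (n : ℕ) (t : Option (Fin d)) {i j : ℕ} : val n t i = val n t j ↔ i = j := by
  cases t with
  | none => simp only [val]; constructor
            · intro h; have : (i : ℝ) = j := by linarith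
              exact_mod_cast this
            · rintro rfl; rfl
  | some a => simp only [val]; exact Nat.cast_inj

/-- the barycentric coordinates -/
def co (n : ℕ) (x : Fin d → ℕ) (t : Option (Fin d)) : ℕ :=
  match t with
  | some i => x i
  | none => n - 1 - ∑ i, x i

theorem onFacet_iff (n : ℕ) (x : Fin d → ℕ) (hx : ∑ i, x i + 1 ≤ n) (f : Facet d) :
    OnFacet f x ↔ f.2 = val n f.1 (co n x f.1) := by
  obtain ⟨t, b⟩ := f
  cases t with
  | some i => simp only [OnFacet, val, co]; exact eq_comm
  | none =>
    simp only [OnFacet, val, co]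
    have h1 : ((n - 1 - ∑ i, x i : ℕ) : ℝ) = (n : ℝ) - 1 - ∑ i, (x i : ℝ) := by
      rw [Nat.cast_sub (by omega), Nat.cast_sub (by omega)]; push_cast; ring
    rw [h1]
    constructor
    · intro h; linarith
    · intro h; linarith

/-- the multiplicity of the hyperplane number `i` of direction `t` -/
noncomputable def al (n : ℕ) (F : List (Facet d)) (t : Option (Fin d)) (i : ℕ) : ℕ :=
  F.countP (fun f => decide (f.1 = t ∧ f.2 = val n t i))

/-- the number of hyperplanes of direction `t` with multiplicity greater than `p` -/
noncomputable def aa (n : ℕ) (F : List (Facet d)) (t : Option (Fin d)) (p : ℕ) : ℕ :=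
  ((range n).filter (fun i => p < al n F t i)).card

theorem cntF_eq (n : ℕ) (F : List (Facet d)) (x : Fin d → ℕ) (hx : ∑ i, x i + 1 ≤ n) :
    cntF F x = ∑ t, al n F t (co n x t) := by
  induction F with
  | nil => simp [cntF, al]
  | cons f F ih =>
    have h1 : cntF (f :: F) x = cntF F x + if OnFacet f x then 1 else 0 := by
      unfold cntF; rw [List.countP_cons]; simp
    have h2 : ∀ t, al n (f :: F) t (co n x t) = al n F t (co n x t) +
        if t = f.1 then (if OnFacet f x then 1 else 0) else 0 := by
      intro t
      unfold al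
      rw [List.countP_cons]
      congr 1
      by_cases ht : t = f.1
      · subst ht
        rw [if_pos rfl]
        simp only [true_and, decide_eq_true_eq, onFacet_iff n x hx f]
      · rw [if_neg ht, if_neg]
        simp only [decide_eq_true_eq]
        rintro ⟨h, _⟩; exact ht h.symm
    rw [h1, ih, Finset.sum_congr rfl (fun t _ => h2 t), Finset.sum_add_distrib,
      Finset.sum_ite_eq' univ f.1]
    simp

theorem aa_cons_hit (n : ℕ) (f : Facet d) (F : List (Facet d)) (i : ℕ) (hi : i < n)
    (hf : f.2 = val n f.1 i) (t : Option (Fin d)) (p : ℕ) :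
    aa n (f :: F) t p = aa n F t p + if t = f.1 then (if p = al n F f.1 i then 1 else 0) else 0 := by
  have h2 : ∀ t j, al n (f :: F) t j = al n F t j + if t = f.1 ∧ j = i then 1 else 0 := by
    intro t j
    unfold al
    rw [List.countP_cons]
    congr 1
    simp only [decide_eq_true_eq]
    by_cases ht : t = f.1
    · subst ht
      have : (f.1 = f.1 ∧ f.2 = val n f.1 j) ↔ (f.1 = f.1 ∧ j = i) := by
        rw [hf, val_inj]
        exact ⟨fun h => ⟨h.1, h.2.symm⟩, fun h => ⟨h.1, h.2.symm⟩⟩
      simp only [true_and] at this ⊢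
      simp only [this]
    · rw [if_neg (fun h => ht h.1.symm), if_neg (fun h => ht h.1)]
  unfold aa
  by_cases ht : t = f.1
  · subst ht
    rw [if_pos rfl]
    by_cases hp : p = al n F f.1 i
    · rw [if_pos hp]
      have : (range n).filter (fun j => p < al n (f :: F) f.1 j) =
          insert i ((range n).filter (fun j => p < al n F f.1 j)) := by
        ext j
        simp only [mem_filter, mem_insert, h2, true_and, mem_range]
        constructor
        · rintro ⟨h1, h3⟩
          by_cases hj : j = i
          · exact Or.inl hj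
          · rw [if_neg hj] at h3; exact Or.inr ⟨h1, by omega⟩
        · rintro (h1 | ⟨h1, h3⟩)
          · subst h1; exact ⟨hi, by rw [if_pos rfl]; omega⟩
          · exact ⟨h1, by split_ifs <;> omega⟩
      rw [this, Finset.card_insert_of_notMem]
      simp only [mem_filter, not_and, not_lt]
      intro _; omega
    · rw [if_neg hp, add_zero]
      congr 1
      apply Finset.filter_congr
      intro j _
      rw [h2]
      by_cases hj : j = i
      · subst hj; simp only [and_self, if_true]; constructor <;> intro h <;> omega
      · rw [if_neg (fun h => hj h.2)]; simp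
  · rw [if_neg ht, add_zero]
    congr 1
    apply Finset.filter_congr
    intro j _
    rw [h2, if_neg (fun h => ht h.1), add_zero]

theorem aa_cons_miss (n : ℕ) (f : Facet d) (F : List (Facet d))
    (hf : ∀ i < n, f.2 ≠ val n f.1 i) (t : Option (Fin d)) (p : ℕ) :
    aa n (f :: F) t p = aa n F t p := by
  unfold aa
  congr 1
  apply Finset.filter_congr
  intro j hj
  have : al n (f :: F) t j = al n F t j := by
    unfold al
    rw [List.countP_cons]
    have : ¬ (f.1 = t ∧ f.2 = val n t j) := by
      rintro ⟨h1, h2⟩
      subst h1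
      exact hf j (mem_range.1 hj) h2
    simp [this]
  rw [this]

theorem exists_G (n k : ℕ) (F : List (Facet d)) :
    ∃ G : List (Facet d), G.length ≤ F.length ∧ ∀ y : Fin d → ℕ, ∑ i, y i + 1 ≤ k →
      cntF G y = ∑ t, aa n F t (co k y t) := by
  induction F with
  | nil => exact ⟨[], le_refl _, fun y _ => by simp [cntF, aa, al]⟩
  | cons f F ih =>
    obtain ⟨G, hG1, hG2⟩ := ih
    by_cases hf : ∃ i < n, f.2 = val n f.1 i
    · obtain ⟨i, hi, hfi⟩ := hf
      refine ⟨(f.1, val k f.1 (al n F f.1 i)) :: G, by simpa using hG1, fun y hy => ?_⟩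
      have h1 : cntF ((f.1, val k f.1 (al n F f.1 i)) :: G) y = cntF G y +
          if OnFacet (f.1, val k f.1 (al n F f.1 i)) y then 1 else 0 := by
        unfold cntF; rw [List.countP_cons]; simp
      rw [h1, hG2 y hy, Finset.sum_congr rfl (fun t _ => aa_cons_hit n f F i hi hfi t (co k y t)),
        Finset.sum_add_distrib, Finset.sum_ite_eq' univ f.1]
      simp only [mem_univ, if_true]
      congr 1
      have h2 : OnFacet (f.1, val k f.1 (al n F f.1 i)) y ↔ co k y f.1 = al n F f.1 i := by
        rw [onFacet_iff k y hy]
        simp only [val_inj]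
        exact eq_comm
      simp only [h2]
    · push Not at hf
      refine ⟨G, hG1.trans (by simp), fun y hy => ?_⟩
      rw [hG2 y hy]
      exact Finset.sum_congr rfl (fun t _ => (aa_cons_miss n f F hf t _).symm)

theorem compl_card (n : ℕ) (g : ℕ → ℕ) (p : ℕ) :
    ((range n).filter (fun i => g i ≤ p)).card + ((range n).filter (fun i => p < g i)).card = n := by
  have := Finset.card_filter_add_card_filter_not (s := range n) (fun i => g i ≤ p)
  simpa using this

/-- the transfer inequality -/
theorem transfer (n k : ℕ) (F : List (Facet (d + 1))) (R : List ((Fin (d + 1) → ℝ) × ℝ))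
    (hR : ∀ h ∈ R, h.1 ≠ 0)
    (hc : ∀ x : Fin (d + 1) → ℕ, ∑ i, x i + 1 ≤ n → k ≤ cntF F x + cntR R x)
    (y : Fin (d + 1) → ℕ) (hy : ∑ i, y i + 1 ≤ k) :
    n ≤ ∑ t, aa n F t (co k y t) + R.length := by
  have key := main d n (fun j => (range n).filter (fun i => al n F (some j) i ≤ y j))
    ((range n).filter (fun i => al n F none i ≤ k - 1 - ∑ i, y i)) R
    (fun i => filter_subset _ _) (filter_subset _ _) hR ?_
  · have h1 : ∀ j : Fin (d + 1), ((range n).filter (fun i => al n F (some j) i ≤ y j)).card +
        aa n F (some j) (y j) = n := fun j => compl_card n _ _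
    have h2 : ((range n).filter (fun i => al n F none i ≤ k - 1 - ∑ i, y i)).card +
        aa n F none (k - 1 - ∑ i, y i) = n := compl_card n _ _
    have h3 : ∑ j : Fin (d + 1), ((range n).filter (fun i => al n F (some j) i ≤ y j)).card +
        ∑ j : Fin (d + 1), aa n F (some j) (y j) = (d + 1) * n := by
      rw [← Finset.sum_add_distrib, Finset.sum_congr rfl (fun j _ => h1 j)]
      simp
    have h4 : ∑ t, aa n F t (co k y t) = aa n F none (k - 1 - ∑ i, y i) +
        ∑ j : Fin (d + 1), aa n F (some j) (y j) := by
      rw [Fintype.sum_option]; rfl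
    have h5 : (d + 1) * n + n = (d + 1 + 1) * n := by ring
    omega
  · rintro x ⟨hx1, hx2, hx3⟩
    have h1 := hc x hx1
    rw [cntF_eq n F x hx1, Fintype.sum_option] at h1
    have h2 : al n F none (co n x none) ≤ k - 1 - ∑ i, y i := (mem_filter.1 hx3).2
    have h3 : ∑ j : Fin (d + 1), al n F (some j) (co n x (some j)) ≤ ∑ j, y j :=
      Finset.sum_le_sum (fun j _ => (mem_filter.1 (hx2 j)).2)
    have h4 : 0 < cntR R x := by omega
    unfold cntR at h4
    rw [List.countP_pos_iff] at h4
    obtain ⟨h, hh, hhx⟩ := h4
    exact ⟨h, hh, by simpa using hhx⟩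

end Pool.Agent.N516.TG
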